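import Pool.Agent.H58.CLV.TO

set_option autoImplicit false

open Finset MeasureTheory Pool.Agent.H24.CL

namespace Pool.Agent.H58.CLV

/-- the endomorphism of the torus given by an integer matrix -/
noncomputable def TM {k : ℕ} (M : Matrix (Fin k) (Fin k) ℤ) (a : X k) : X k :=
  fun i => ∑ j, M i j • a j

theorem TM_mul {k : ℕ} (M N : Matrix (Fin k) (Fin k) ℤ) (a : X k) :
    TM M (TM N a) = TM (M * N) a := by
  funext i
  simp only [TM, Matrix.mul_apply]
  simp_rw [Finset.smul_sum, smul_smul, Finset.sum_smul]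
  rw [Finset.sum_comm]

theorem TM_one {k : ℕ} (a : X k) : TM (1 : Matrix (Fin k) (Fin k) ℤ) a = a := by
  classical
  funext i
  simp only [TM]
  rw [Finset.sum_eq_single i]
  · simp
  · intro j _ hj
    rw [Matrix.one_apply_ne (Ne.symm hj), zero_smul]
  · simp

theorem TM_smul {k : ℕ} (M : Matrix (Fin k) (Fin k) ℤ) (n : ℕ) (a : X k) :
    TM M (n • a) = n • TM M a := by
  funext i
  simp only [TM, Pi.smul_apply, Finset.smul_sum]
  refine Finset.sum_congr rfl fun j _ => ?_
  rw [smul_comm]

/-- the matrix of `phi` without the powers of `q` -/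
noncomputable def MB (k b : ℕ) : Matrix (Fin k) (Fin k) ℤ :=
  fun i j => (Nat.choose (j.val + 1) (i.val + 1) : ℤ) * (b : ℤ) ^ (j.val - i.val)

theorem MB_det (k b : ℕ) : (MB k b).det = 1 := by
  rw [Matrix.det_of_upperTriangular]
  · refine Finset.prod_eq_one fun i _ => ?_
    simp [MB]
  · intro i j hij
    simp only [id] at hij
    simp only [MB]
    rw [Nat.choose_eq_zero_of_lt (by have : j.val < i.val := hij; omega)]
    simp

theorem MB_inv (k b : ℕ) : ∃ N : Matrix (Fin k) (Fin k) ℤ, MB k b * N = 1 ∧ N * MB k b = 1 := by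
  have h : IsUnit (MB k b).det := by rw [MB_det]; exact isUnit_one
  exact ⟨(MB k b)⁻¹, Matrix.mul_nonsing_inv _ h, Matrix.nonsing_inv_mul _ h⟩

theorem phi_eq {k : ℕ} (q b : ℕ) (a : X k) (i : Fin k) :
    phi q b a i = (q ^ (i.val + 1)) • TM (MB k b) a i := by
  rw [phi_apply]
  simp only [TM, MB, Finset.smul_sum]
  refine Finset.sum_congr rfl fun j _ => ?_
  have h1 : ((Nat.choose (j.val + 1) (i.val + 1) : ℤ) * (b : ℤ) ^ (j.val - i.val)) • a j =
      (Nat.choose (j.val + 1) (i.val + 1) * b ^ (j.val - i.val) : ℕ) • a j := by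
    rw [← natCast_zsmul]
    push_cast
    rfl
  rw [h1, smul_smul, mul_comm]

/-- the diagonal torsion points -/
def DG (k q : ℕ) : Set (X k) := {a | ∀ i, (q ^ (i.val + 1)) • a i = 0}

/-- a diagonal torsion point -/
noncomputable def dpt (k q : ℕ) (n : Fin k → ℕ) : X k :=
  fun i => ((((n i : ℤ) : ℝ) / ((q ^ (i.val + 1) : ℕ) : ℝ) : ℝ) : UnitAddCircle)

theorem sum_KN (k : ℕ) : ∑ i : Fin k, (i.val + 1) = KN k := by
  rw [Fin.sum_univ_eq_sum_range (fun i => i + 1) k]
  unfold KN
  induction k with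
  | zero => simp
  | succ n ih =>
    rw [Finset.sum_range_succ, ih]
    have h1 : n * (n + 1) / 2 * 2 = n * (n + 1) := Nat.div_mul_cancel (Nat.even_mul_succ_self n).two_dvd
    have h2 : (n + 1) * (n + 1 + 1) / 2 * 2 = (n + 1) * (n + 1 + 1) :=
      Nat.div_mul_cancel (Nat.even_mul_succ_self (n + 1)).two_dvd
    nlinarith

open Classical in
theorem card_DG (k q : ℕ) (hq : 1 ≤ q) : Nat.card (DG k q) = q ^ (KN k) := by
  have h1 : DG k q = (((Fintype.piFinset fun i : Fin k => range (q ^ (i.val + 1))).image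
      (dpt k q) : Finset (X k)) : Set (X k)) := by
    ext a
    rw [Finset.mem_coe, Finset.mem_image]
    constructor
    · intro ha
      have h2 : ∀ i : Fin k, ∃ n : ℕ, n < q ^ (i.val + 1) ∧
          a i = ((((n : ℤ) : ℝ) / ((q ^ (i.val + 1) : ℕ) : ℝ) : ℝ) : UnitAddCircle) := by
        intro i
        have hQ : 0 < q ^ (i.val + 1) := by positivity
        obtain ⟨m, hm⟩ := (nsmul_zero_iff (a i) _ hQ).1 (ha i)
        have hQ' : (0 : ℤ) < ((q ^ (i.val + 1) : ℕ) : ℤ) := by exact_mod_cast hQ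
        have h3 := Int.emod_lt_of_pos m hQ'
        have h4 := Int.emod_nonneg m hQ'.ne'
        refine ⟨(m % ((q ^ (i.val + 1) : ℕ) : ℤ)).toNat, ?_, ?_⟩
        · have h5 : (((m % ((q ^ (i.val + 1) : ℕ) : ℤ)).toNat : ℕ) : ℤ) < ((q ^ (i.val + 1) : ℕ) : ℤ) := by
            rw [Int.toNat_of_nonneg h4]
            exact h3
          exact_mod_cast h5
        · rw [hm, div_eq_iff _ _ _ hQ, Int.toNat_of_nonneg h4]
          exact Int.dvd_self_sub_emod
      choose n hn hn2 using h2
      refine ⟨n, ?_, ?_⟩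
      · rw [Fintype.mem_piFinset]
        exact fun i => Finset.mem_range.2 (hn i)
      · funext i
        exact (hn2 i).symm
    · rintro ⟨n, _, rfl⟩ i
      have hQ : 0 < q ^ (i.val + 1) := by positivity
      rw [nsmul_zero_iff _ _ hQ]
      exact ⟨(n i : ℤ), rfl⟩
  rw [h1, Nat.card_coe_set_eq, Set.ncard_coe_finset, Finset.card_image_of_injOn,
    Fintype.card_piFinset]
  · simp only [Finset.card_range]
    rw [Finset.prod_pow_eq_pow_sum, sum_KN]
  · intro n hn n' hn' h
    rw [Finset.mem_coe, Fintype.mem_piFinset] at hn hn'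
    funext i
    have hQ : 0 < q ^ (i.val + 1) := by positivity
    have h2 := (div_eq_iff _ _ _ hQ).1 (congrFun h i)
    have h4 := Finset.mem_range.1 (hn i)
    have h5 := Finset.mem_range.1 (hn' i)
    have h6 : ((n i : ℤ) - n' i) = 0 := by
      refine Int.eq_zero_of_abs_lt_dvd h2 ?_
      rw [abs_lt]
      zify at h4 h5
      push_cast
      constructor <;> omega
    omega

theorem pf_KC (_h : T_TO) : T_KC := by
  intro k q b hq
  obtain ⟨N, hN1, hN2⟩ := MB_inv k b
  have hker : ∀ a : X k, a ∈ (phi q b : X k →+ X k).ker ↔ TM (MB k b) a ∈ DG k q := by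
    intro a
    rw [AddMonoidHom.mem_ker]
    constructor
    · intro h i
      rw [← phi_eq, h]
      rfl
    · intro h
      funext i
      rw [phi_eq, h i]
      rfl
  constructor
  · rw [← card_DG k q hq]
    refine Nat.card_congr ⟨fun a => ⟨TM (MB k b) a.1, (hker a.1).1 a.2⟩,
      fun y => ⟨TM N y.1, (hker _).2 (by rw [TM_mul, hN1, TM_one]; exact y.2)⟩, ?_, ?_⟩
    · intro a
      apply Subtype.ext
      simp only
      rw [TM_mul, hN2, TM_one]
    · intro a
      apply Subtype.ext
      simp only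
      rw [TM_mul, hN1, TM_one]
  · intro a ha
    rw [mem_H]
    have h1 : q ^ k • TM (MB k b) a = 0 := by
      funext i
      have h2 := (hker a).1 ha i
      have h3 : q ^ k = q ^ (k - (i.val + 1)) * q ^ (i.val + 1) := by
        rw [← pow_add]
        congr 1
        have := i.2
        omega
      rw [Pi.smul_apply, h3, mul_smul, h2, smul_zero]
      rfl
    rw [← TM_smul] at h1
    have h4 : q ^ k • a = 0 := by
      have h5 := congrArg (TM N) h1
      rw [TM_mul, hN2, TM_one] at h5
      rw [h5]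
      funext i
      simp [TM]
    intro i
    exact congrFun h4 i

end Pool.Agent.H58.CLV
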