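import Pool.Agent.H24.CL.Targets

set_option autoImplicit false

open Finset MeasureTheory Pool.Agent.H24.CL

namespace Pool.Agent.H58.CLV

theorem circ_eq_zero (y : ℝ) : ((y : ℝ) : UnitAddCircle) = 0 ↔ ∃ z : ℤ, y = z := by
  rw [AddCircle.coe_eq_zero_iff]
  constructor
  · rintro ⟨n, hn⟩
    exact ⟨n, by rw [← hn]; simp⟩
  · rintro ⟨n, hn⟩
    exact ⟨n, by rw [hn]; simp⟩

theorem circ_nsmul (n : ℕ) (y : ℝ) : n • ((y : ℝ) : UnitAddCircle) = (((n : ℝ) * y : ℝ) : UnitAddCircle) := by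
  rw [← AddCircle.coe_nsmul, nsmul_eq_mul]

theorem nsmul_zero_iff (x : UnitAddCircle) (n : ℕ) (hn : 0 < n) :
    n • x = 0 ↔ ∃ m : ℤ, x = (((m : ℝ) / (n : ℝ) : ℝ) : UnitAddCircle) := by
  have hn' : (n : ℝ) ≠ 0 := by positivity
  obtain ⟨y, rfl⟩ := QuotientAddGroup.mk_surjective x
  change n • ((y : ℝ) : UnitAddCircle) = 0 ↔ ∃ m : ℤ, ((y : ℝ) : UnitAddCircle) = _
  rw [circ_nsmul, circ_eq_zero]
  constructor
  · rintro ⟨z, hz⟩
    refine ⟨z, ?_⟩
    congr 1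
    field_simp
    linarith
  · rintro ⟨m, hm⟩
    have h1 : ((y - (m : ℝ) / (n : ℝ) : ℝ) : UnitAddCircle) = 0 := by
      rw [AddCircle.coe_sub, hm, sub_self]
    rw [circ_eq_zero] at h1
    obtain ⟨z, hz⟩ := h1
    refine ⟨m + n * z, ?_⟩
    push_cast
    rw [← hz]
    field_simp
    ring

theorem div_eq_iff (a b : ℤ) (n : ℕ) (hn : 0 < n) :
    (((a : ℝ) / (n : ℝ) : ℝ) : UnitAddCircle) = (((b : ℝ) / (n : ℝ) : ℝ) : UnitAddCircle) ↔
      ((n : ℤ) ∣ a - b) := by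
  have hn' : (n : ℝ) ≠ 0 := by positivity
  rw [← sub_eq_zero, ← AddCircle.coe_sub, circ_eq_zero]
  constructor
  · rintro ⟨z, hz⟩
    refine ⟨z, ?_⟩
    have : (a : ℝ) - b = n * z := by
      rw [← hz]; field_simp
    exact_mod_cast this
  · rintro ⟨z, hz⟩
    refine ⟨z, ?_⟩
    have : (a : ℝ) - b = n * z := by exact_mod_cast hz
    rw [← sub_div, this]
    field_simp

theorem mem_H (k q r : ℕ) (a : X k) : a ∈ H k q r ↔ ∀ i, (q ^ r) • a i = 0 := by
  unfold H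
  rw [AddMonoidHom.mem_ker]
  constructor
  · intro h i
    have := congrFun h i
    simpa using this
  · intro h
    funext i
    simpa using h i

theorem mem_H_iff (k q : ℕ) (hq : 1 ≤ q) (r : ℕ) (a : X k) :
    a ∈ H k q r ↔ ∃ n : Fin k → ℤ, a = tor q r n := by
  rw [mem_H]
  have hQ : 0 < q ^ r := by positivity
  constructor
  · intro h
    have h2 : ∀ i, ∃ m : ℤ, a i = (((m : ℝ) / ((q ^ r : ℕ) : ℝ) : ℝ) : UnitAddCircle) := fun i =>
      (nsmul_zero_iff (a i) _ hQ).1 (h i)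
    choose n hn using h2
    refine ⟨n, ?_⟩
    funext i
    rw [hn i]
    simp [tor]
  · rintro ⟨n, rfl⟩ i
    rw [nsmul_zero_iff _ _ hQ]
    exact ⟨n i, by simp [tor]⟩

theorem tor_eq_iff (k q : ℕ) (hq : 1 ≤ q) (r : ℕ) (n n' : Fin k → ℤ) :
    (tor q r n : X k) = tor q r n' ↔ ∀ i, ((q : ℤ) ^ r) ∣ n i - n' i := by
  have hQ : 0 < q ^ r := by positivity
  rw [funext_iff]
  refine forall_congr' fun i => ?_
  have h := div_eq_iff (n i) (n' i) (q ^ r) hQ
  simp only [tor]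
  push_cast at h
  exact h

theorem mem_HF_iff (k q : ℕ) (hq : 1 ≤ q) (r : ℕ) (a : X k) :
    a ∈ HF k q r ↔ a ∈ H k q r := by
  classical
  rw [mem_H_iff k q hq]
  unfold HF
  rw [Finset.mem_image]
  constructor
  · rintro ⟨n, _, rfl⟩
    exact ⟨_, rfl⟩
  · rintro ⟨n, rfl⟩
    have hQ : (0 : ℤ) < (q : ℤ) ^ r := by positivity
    refine ⟨fun i => (n i % ((q : ℤ) ^ r)).toNat, ?_, ?_⟩
    · rw [Fintype.mem_piFinset]
      intro i
      rw [Finset.mem_range]
      have h1 := Int.emod_lt_of_pos (n i) hQ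
      have h2 := Int.emod_nonneg (n i) hQ.ne'
      zify
      rw [Int.toNat_of_nonneg h2]
      exact h1
    · rw [tor_eq_iff k q hq]
      intro i
      have h2 := Int.emod_nonneg (n i) hQ.ne'
      simp only
      rw [Int.toNat_of_nonneg h2]
      rw [← Int.dvd_neg, neg_sub]
      exact Int.dvd_self_sub_emod

theorem card_HF (k q : ℕ) (hq : 1 ≤ q) (r : ℕ) : (HF k q r).card = q ^ (r * k) := by
  classical
  unfold HF
  rw [Finset.card_image_of_injOn, Fintype.card_piFinset]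
  · simp [pow_mul]
  · intro n hn n' hn' h
    rw [Finset.mem_coe, Fintype.mem_piFinset] at hn hn'
    have h2 := (tor_eq_iff k q hq r _ _).1 h
    funext i
    have h3 := h2 i
    have h4 := Finset.mem_range.1 (hn i)
    have h5 := Finset.mem_range.1 (hn' i)
    have h6 : ((n i : ℤ) - n' i) = 0 := by
      refine Int.eq_zero_of_abs_lt_dvd h3 ?_
      rw [abs_lt]
      zify at h4 h5
      constructor <;> omega
    omega

theorem phi_apply {k : ℕ} (q b : ℕ) (a : X k) (i : Fin k) : phi q b a i =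
    ∑ j : Fin k, (Nat.choose (j.val + 1) (i.val + 1) * b ^ (j.val - i.val) * q ^ (i.val + 1)) • a j :=
  rfl

theorem phi_tor (k q : ℕ) (hq : 1 ≤ q) (r b : ℕ) (n : Fin k → ℤ) :
    phi q b (tor q (r + 1) n : X k) = tor q r (fun i =>
      (q : ℤ) ^ i.val * ∑ j : Fin k, (Nat.choose (j.val + 1) (i.val + 1) : ℤ) *
        (b : ℤ) ^ (j.val - i.val) * n j) := by
  funext i
  rw [phi_apply]
  simp only [tor]
  have hq' : (q : ℝ) ≠ 0 := by positivity
  have h1 : ∀ j : Fin k, (Nat.choose (j.val + 1) (i.val + 1) * b ^ (j.val - i.val) * q ^ (i.val + 1)) •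
      (((n j : ℝ) / (q : ℝ) ^ (r + 1) : ℝ) : UnitAddCircle) =
      ((((Nat.choose (j.val + 1) (i.val + 1) * b ^ (j.val - i.val) * q ^ (i.val + 1) : ℕ) : ℝ) *
        ((n j : ℝ) / (q : ℝ) ^ (r + 1)) : ℝ) : UnitAddCircle) := fun j => circ_nsmul _ _
  rw [Finset.sum_congr rfl fun j _ => h1 j]
  have h2 : ∀ g : Fin k → ℝ, (∑ j : Fin k, ((g j : ℝ) : UnitAddCircle)) = ((∑ j, g j : ℝ) : UnitAddCircle) := by
    intro g
    exact (map_sum (QuotientAddGroup.mk' (AddSubgroup.zmultiples (1 : ℝ))) g Finset.univ).symm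
  rw [h2]
  congr 1
  push_cast
  rw [Finset.mul_sum, Finset.sum_div]
  refine Finset.sum_congr rfl fun j _ => ?_
  field_simp
  ring

theorem phi_H1 (k q b : ℕ) (a : X k) (ha : a ∈ H k q 1) : phi q b a = 0 := by
  rw [mem_H] at ha
  funext i
  rw [phi_apply, Pi.zero_apply]
  refine Finset.sum_eq_zero fun j _ => ?_
  have h1 := ha j
  rw [pow_one] at h1
  rw [pow_succ, ← mul_assoc, mul_smul, h1, smul_zero]

theorem pf_TO : T_TO := by
  intro k q hq
  refine ⟨mem_H_iff k q hq, mem_HF_iff k q hq, card_HF k q hq, tor_eq_iff k q hq, ?_, ?_⟩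
  · intro r b n
    exact phi_tor k q hq r b n
  · intro b a ha
    exact phi_H1 k q b a ha

end Pool.Agent.H58.CLV
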